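import Mathlib
import Pool.Agent.H170.Reg.Chi

set_option autoImplicit false

/-!
# Density and chromatic number of regular matroids (MP_974d84_co)

Let `M` be a regular matroid, that is, the matroid of the columns of a totally unimodular matrix
`B`, with rank function `r`.  If `2 |Y| ≤ k r(Y)` for every set `Y` of elements, where `k ≥ 3`,
then the characteristic polynomial of `M` is positive at every integer `q ≥ k`.

For `k = 5` this is a case of the question: `χ_M(q) ≠ 0` for all integers `q ≥ 5` and all regular
`M` with `|Y| ≤ (5/2) r(Y)` for all `Y`.  For the bond matroid of a multigraph the condition says
that every partition of the vertex set into `c` classes has at least `(5/3)(c - 1)` edges between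
different classes, and the conclusion contains the existence of nowhere-zero 5-flows.  The bond
matroid of the Petersen graph satisfies the condition with equality, and its characteristic
polynomial vanishes at `4`.

Proof.  The kernel lattice of `B` gives a unimodular configuration representing the dual matroid;
the density condition says that it has `k` bases which use every element at most `k - 2` times.  By
the covering theorem (starting files `H239R2/Cover`) every real vector is congruent modulo the
lattice to a combination with coefficients at most `(k - 2) / (2 k)`; applied to half the sum of
all elements, and rounded, this gives a flow modulo `k` of the dual configuration without zeros,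
which is a nowhere-zero tension of `B` modulo `k`.  These are counted by the characteristic
polynomial.
-/

namespace Pool.Agent.Results.MP_974d84_co.RegularDensity

/-- The rank of a set of columns of an integer matrix. -/
noncomputable def colRank {m n : ℕ} (B : Matrix (Fin m) (Fin n) ℤ) (X : Finset (Fin n)) : ℕ :=
  Module.finrank ℚ (Submodule.span ℚ ((fun j => fun i => (B i j : ℚ)) '' (X : Set (Fin n))))

theorem result :
    ∀ (m n : ℕ) (B : Matrix (Fin m) (Fin n) ℤ), B.IsTotallyUnimodular →
      ∀ k : ℕ, 3 ≤ k → (∀ Y : Finset (Fin n), 2 * Y.card ≤ k * colRank B Y) →
        ∀ q : ℕ, k ≤ q →
          0 < ∑ X : Finset (Fin n), (-1 : ℤ) ^ X.card *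
            (q : ℤ) ^ (colRank B Finset.univ - colRank B X) := by
  intro m n B hB k hk hd q hq
  exact Pool.Agent.H170.Reg.chi_pos (fun j i => B i j) hB q (hk.trans hq)
    (fun Y => (hd Y).trans (Nat.mul_le_mul_right _ hq))

end Pool.Agent.Results.MP_974d84_co.RegularDensity
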